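import Mathlib
import Pool.Agent.TH104.HY.C
import Pool.Agent.H238R2.HY.Part
import Pool.Agent.Helper311.Glue.Asym

set_option autoImplicit false

/-!
(p,1)-total labellings from colourings of the induced subgraphs of smaller maximum degree:
the case of few colours.
-/

namespace Pool.Agent.Q109.HY

open Finset Pool.Agent.H238R2.HY Pool.Agent.TH104.HY Pool.Agent.Helper311.Glue

lemma exp_bound {L D m x : ℝ} (hL : L = Real.log D) (hD0 : 0 < D) (hD1 : 1 ≤ D) (hm0 : 0 < m)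
    (h24 : 24 * m * L ≤ x ^ 2 * D) (h8 : 8 * m ≤ D) :
    4 * (2 * m * Real.exp (-(x ^ 2 * D / (3 * (2 * m))))) * (D * D) ≤ 1 := by
  have e1 : Real.exp (-(4 * L)) = (D ^ 4)⁻¹ := by
    rw [Real.exp_neg, hL]
    congr 1
    rw [show (4 : ℝ) * Real.log D = ((4 : ℕ) : ℝ) * Real.log D by norm_num, ← Real.log_pow,
      Real.exp_log (by positivity)]
  have h1 : Real.exp (-(x ^ 2 * D / (3 * (2 * m)))) ≤ (D ^ 4)⁻¹ := by
    rw [← e1]
    apply Real.exp_le_exp.2
    have h2 : 4 * L ≤ x ^ 2 * D / (3 * (2 * m)) := by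
      rw [le_div_iff₀ (by positivity)]
      linarith
    linarith
  have h3 : 4 * (2 * m * Real.exp (-(x ^ 2 * D / (3 * (2 * m))))) * (D * D) ≤
      4 * (2 * m * (D ^ 4)⁻¹) * (D * D) := by gcongr
  refine h3.trans ?_
  have h4 : 4 * (2 * m * (D ^ 4)⁻¹) * (D * D) = 8 * m / D ^ 2 := by
    field_simp; norm_num
  rw [h4, div_le_one (by positivity)]
  nlinarith

/-- colourings of all types with the same number of colours -/
lemma glue_types {V : Type} (G : SimpleGraph V) (t : V → ℕ) (k : ℕ)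
    (h : ∀ y, ∃ n, n ≤ k ∧ ColOn G {v | t v = y} n) :
    ∃ c : V → ℕ, (∀ v, c v < k) ∧ ∀ u v, G.Adj u v → t u = t v → c u ≠ c v := by
  choose n hn c hc using h
  refine ⟨fun v => c (t v) v, fun v => ?_, ?_⟩
  · exact lt_of_lt_of_le ((hc (t v)).1 v rfl) (hn (t v))
  · intro u v huv htt
    show c (t u) u ≠ c (t v) v
    rw [htt]
    exact (hc (t v)).2 u htt v rfl huv

set_option maxHeartbeats 2000000 in
/-- the numerical part -/
lemma small_num {e L D m x Y w k p φ : ℝ} (he0 : 0 < e) (he1 : e ≤ 1)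
    (hL : 1000 ≤ e * L) (hL1 : 1000 ≤ L) (hDL : 10 ^ 4 * L ^ 20 ≤ D) (hDe : 10 ^ 4 * L ^ 20 ≤ e * D)
    (hm1 : L ^ 3 ≤ m) (hm2 : m ≤ L ^ 3 + 1) (hx : x = 1 / L ^ 4)
    (hY : 2 * m * Y = D) (hw : w ≤ (1 + x) * Y) (hw2 : Y ≤ w + 1) (hw0 : 0 ≤ w)
    (hφ1 : D / L ^ 2 ≤ φ) (hφ2 : φ ≤ D / 6) (hk : k ≤ (1 + e / 4) * (w / D) * φ)
    (hk0 : 0 ≤ k) (hp : (1 / 2 + e) * φ ≤ p) :
    24 * m * L ≤ x ^ 2 * D ∧ 8 * m ≤ D ∧ k ≤ w ∧
    2 * (0 + 1) * k + (2 * m - 1 - 2 * 0) * (w + 1) ≤ D + 2 ∧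
    m * k + (2 * m + 1) * (w + 1) ≤ D + p + 2 ∧
    (2 * (0 : ℝ) + 1) * (w + 1) ≤ p - 1 + (0 + 1) * k ∧ D / L ^ 4 ≤ w ∧ w ≤ D := by
  have hL0 : 0 < L := by linarith
  have hD0 : 0 < D := lt_of_lt_of_le (by positivity) hDL
  have hL3 : 1 ≤ L ^ 3 := one_le_pow₀ (by linarith)
  have hm0 : 0 < m := by linarith
  have hm3 : m ≤ 2 * L ^ 3 := by linarith
  have hx0 : 0 < x := by rw [hx]; positivity
  have hY0 : 0 < Y := by
    by_contra h
    push Not at h
    nlinarith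
  have hxL : x * L ^ 4 = 1 := by rw [hx]; field_simp
  have hp20 : ∀ n : ℕ, n ≤ 20 → L ^ n ≤ L ^ 20 := fun n hn =>
    pow_le_pow_right₀ (by linarith) hn
  have hφ0 : 0 < φ := lt_of_lt_of_le (by positivity) hφ1
  have hφ1' : D ≤ φ * L ^ 2 := by rwa [div_le_iff₀ (by positivity)] at hφ1
  -- x D
  have hxD : x * D ≤ φ / L ^ 2 := by
    rw [le_div_iff₀ (by positivity)]
    have : x * D * L ^ 2 ≤ x * (φ * L ^ 2) * L ^ 2 := by gcongr
    have e2 : x * (φ * L ^ 2) * L ^ 2 = φ * (x * L ^ 4) := by ring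
    rw [e2, hxL] at this
    linarith
  have hYφ : Y ≤ φ / (2 * L) := by
    rw [le_div_iff₀ (by positivity)]
    have h1 : L ^ 2 * (Y * (2 * L)) ≤ L ^ 2 * φ := by
      have e1 : L ^ 2 * (Y * (2 * L)) = 2 * L ^ 3 * Y := by ring
      rw [e1]
      have : 2 * L ^ 3 * Y ≤ 2 * m * Y := by gcongr
      linarith
    exact le_of_mul_le_mul_left h1 (by positivity)
  have hx1 : x ≤ e / 16 := by
    have h1 : x * L ^ 4 ≤ e / 16 * L ^ 4 := by
      rw [hxL]
      have h2 : L ≤ L ^ 4 := by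
        calc L = L ^ 1 := (pow_one L).symm
          _ ≤ L ^ 4 := pow_le_pow_right₀ (by linarith) (by norm_num)
      have h3 : e * L ≤ e * L ^ 4 := mul_le_mul_of_nonneg_left h2 he0.le
      linarith
    exact le_of_mul_le_mul_right h1 (by positivity)
  have hwY : w ≤ 17 / 16 * Y := by
    refine hw.trans ?_
    exact mul_le_mul_of_nonneg_right (by linarith) hY0.le
  have hφL : φ / L ≤ e * φ / 1000 := by
    rw [div_le_div_iff₀ hL0 (by norm_num)]
    have := mul_le_mul_of_nonneg_left hL hφ0.le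
    linarith
  have hφL2 : φ / L ^ 2 ≤ φ / L := by
    apply div_le_div_of_nonneg_left hφ0.le hL0
    calc L = L ^ 1 := (pow_one L).symm
      _ ≤ L ^ 2 := pow_le_pow_right₀ (by linarith) (by norm_num)
  have hY2 : Y ≤ e * φ / 2000 := by
    refine hYφ.trans ?_
    have : φ / (2 * L) = φ / L / 2 := by field_simp
    rw [this]; linarith
  have hmφ : 3 * m + 3 ≤ e * φ / 100 := by
    have h1 : (3 * m + 3) * (100 * L ^ 2) ≤ e * D := by
      have h2 : (3 * m + 3) * (100 * L ^ 2) ≤ (9 * L ^ 3) * (100 * L ^ 2) := by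
        apply mul_le_mul_of_nonneg_right (by linarith) (by positivity)
      have h3 : (9 * L ^ 3) * (100 * L ^ 2) = 900 * L ^ 5 := by ring
      have h4 := hp20 5 (by norm_num)
      nlinarith
    have h5 : e * D ≤ e * (φ * L ^ 2) := mul_le_mul_of_nonneg_left hφ1' he0.le
    rw [le_div_iff₀ (by norm_num)]
    have h6 : L ^ 2 * ((3 * m + 3) * 100) ≤ L ^ 2 * (e * φ) := by nlinarith
    exact le_of_mul_le_mul_left h6 (by positivity)
  have hkw : k ≤ w / 4 := by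
    refine hk.trans ?_
    have h1 : (1 + e / 4) * (w / D) * φ ≤ (1 + e / 4) * (w / D) * (D / 6) :=
      mul_le_mul_of_nonneg_left hφ2 (by positivity)
    have h2 : (1 + e / 4) * (w / D) * (D / 6) = (1 + e / 4) / 6 * w := by field_simp
    rw [h2] at h1
    refine h1.trans ?_
    have h3 : (1 + e / 4) / 6 ≤ 1 / 4 := by linarith
    have := mul_le_mul_of_nonneg_right h3 hw0
    linarith
  have hxY : x * D ≤ Y / 8 := by
    rw [← hY]
    have h1 : x * (2 * m) ≤ 1 / 8 := by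
      have h2 : x * (2 * m) ≤ x * (4 * L ^ 3) := by
        apply mul_le_mul_of_nonneg_left (by linarith) hx0.le
      have h3 : x * (4 * L ^ 3) * L = 4 := by
        have : x * (4 * L ^ 3) * L = 4 * (x * L ^ 4) := by ring
        rw [this, hxL]; norm_num
      have h4 : x * (4 * L ^ 3) * L ≤ 1 / 8 * L := by rw [h3]; linarith
      exact h2.trans (le_of_mul_le_mul_right h4 hL0)
    have h5 := mul_le_mul_of_nonneg_right h1 hY0.le
    nlinarith
  have hmY : 2 * m ≤ Y / 8 := by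
    have h1 : 2 * m * (2 * m) ≤ 2 * m * (Y / 8) := by
      have e1 : 2 * m * (Y / 8) = D / 8 := by rw [← hY]; ring
      rw [e1]
      have h2 : m * m ≤ (2 * L ^ 3) * (2 * L ^ 3) := by gcongr
      have h3 : (2 * L ^ 3) * (2 * L ^ 3) = 4 * L ^ 6 := by ring
      have h4 := hp20 6 (by norm_num)
      linarith
    exact le_of_mul_le_mul_left h1 (by positivity)
  have h2mw : 2 * m * (w + 1) ≤ D + x * D + 2 * m := by
    have h1 : 2 * m * (w + 1) ≤ 2 * m * ((1 + x) * Y + 1) :=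
      mul_le_mul_of_nonneg_left (by linarith) (by positivity)
    have h2 : 2 * m * ((1 + x) * Y + 1) = 2 * m * Y + x * (2 * m * Y) + 2 * m := by ring
    rw [h2, hY] at h1
    exact h1
  refine ⟨?_, ?_, by linarith, ?_, ?_, ?_, ?_, ?_⟩
  · -- 24 m L ≤ D / L^8
    have h1 : x ^ 2 * D = D / L ^ 8 := by rw [hx]; field_simp
    rw [h1, le_div_iff₀ (by positivity)]
    have h2 : 24 * m * L * L ^ 8 ≤ 24 * (2 * L ^ 3) * L * L ^ 8 := by gcongr
    have h3 : 24 * (2 * L ^ 3) * L * L ^ 8 = 48 * L ^ 12 := by ring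
    have h4 := hp20 12 (by norm_num)
    linarith
  · have h4 := hp20 3 (by norm_num)
    linarith
  · nlinarith
  · have h1 : m * k ≤ (1 / 2 + e / 4) * φ := by
      have h2 : m * k ≤ m * ((1 + e / 4) * (w / D) * φ) := mul_le_mul_of_nonneg_left hk hm0.le
      have h3 : m * ((1 + e / 4) * (w / D) * φ) = (1 + e / 4) * ((2 * m * w) / D) / 2 * φ := by
        ring
      have h4 : (2 * m * w) / D ≤ 1 + x := by
        rw [div_le_iff₀ hD0]
        have : 2 * m * w ≤ 2 * m * ((1 + x) * Y) := mul_le_mul_of_nonneg_left hw (by positivity)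
        have h5 : 2 * m * ((1 + x) * Y) = (1 + x) * (2 * m * Y) := by ring
        rw [h5, hY] at this
        exact this
      have h6 : (1 + e / 4) * ((2 * m * w) / D) / 2 ≤ 1 / 2 + e / 4 := by
        have h7 : (1 + e / 4) * ((2 * m * w) / D) ≤ (1 + e / 4) * (1 + x) :=
          mul_le_mul_of_nonneg_left h4 (by positivity)
        have h8 : (1 + e / 4) * (1 + x) ≤ (1 + e / 4) * (1 + e / 16) :=
          mul_le_mul_of_nonneg_left (by linarith) (by positivity)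
        nlinarith
      have h9 := mul_le_mul_of_nonneg_right h6 hφ0.le
      linarith
    have h10 : e * φ ≤ e * φ := le_refl _
    nlinarith
  · have h1 : 0 < e * φ := by positivity
    have h2 : e * φ ≤ 1 * φ := mul_le_mul_of_nonneg_right he1 hφ0.le
    nlinarith
  · rw [div_le_iff₀ (by positivity)]
    have h1 : D ≤ 4 * L ^ 3 * Y := by
      rw [← hY]
      have : 2 * m * Y ≤ 2 * (2 * L ^ 3) * Y := by gcongr
      linarith
    have h2 : Y ≤ 2 * w := by
      have : 1 ≤ Y / 8 := by linarith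
      linarith
    have h3 : 4 * L ^ 3 * Y ≤ 4 * L ^ 3 * (2 * w) := by gcongr
    have h4 : 4 * L ^ 3 * (2 * w) = w * (8 * L ^ 3) := by ring
    have h5 : w * (8 * L ^ 3) ≤ w * (L ^ 4) := by
      apply mul_le_mul_of_nonneg_left _ hw0
      have : L ^ 4 = L * L ^ 3 := by ring
      rw [this]
      exact mul_le_mul_of_nonneg_right (by linarith) (by positivity)
    linarith
  · have h1 : 2 * Y ≤ D := by
      rw [← hY]
      have : 2 * 1 * Y ≤ 2 * m * Y := by
        apply mul_le_mul_of_nonneg_right _ hY0.le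
        linarith
      linarith
    linarith

/-- the condition on the graph: every set of vertices with degrees at most `w` can be coloured
with about `(w / D) φ` colours -/
def Cols {V : Type} (G : SimpleGraph V) (D : ℕ) (e φ : ℝ) : Prop :=
  ∀ w : ℕ, (D : ℝ) / Real.log D ^ 4 ≤ w → w ≤ D → ∀ P : Set V,
    (∀ v ∈ P, {u | u ∈ P ∧ G.Adj v u}.ncard ≤ w) →
      ∃ n : ℕ, (n : ℝ) ≤ (1 + e) * (w / D) * φ ∧ ColOn G P n

theorem small_core (e : ℝ) (he0 : 0 < e) (he1 : e ≤ 1) : ∃ D₀ : ℕ, ∀ (V : Type) [Fintype V]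
    (G : SimpleGraph V) [DecidableRel G.Adj] (D p : ℕ) (φ : ℝ), D₀ ≤ D →
    (∀ v, G.degree v ≤ D) → (D : ℝ) / Real.log D ^ 2 ≤ φ → φ ≤ D / 6 → Cols G D (e / 4) φ →
    (1 / 2 + e) * φ ≤ p → TotLab G p (D + 2 * p - 1) := by
  have h1 := (isLittleO_pow_exp_pos_mul_atTop 20 (show (0 : ℝ) < 1 by norm_num)).bound
    (show (0 : ℝ) < (10 ^ 4 / e)⁻¹ by positivity)
  have h2 : Filter.Tendsto (fun n : ℕ => Real.log (n : ℝ)) Filter.atTop Filter.atTop :=
    Real.tendsto_log_atTop.comp tendsto_natCast_atTop_atTop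
  have h3 := h2.eventually (h1.and (Filter.eventually_ge_atTop (1000 / e : ℝ)))
  obtain ⟨N, hN⟩ := Filter.eventually_atTop.1 h3
  refine ⟨max N 1, ?_⟩
  intro V _ G _ D p φ hD hdeg hφ1 hφ2 hcol hp
  classical
  obtain ⟨h4, hB1⟩ := hN D (le_trans (le_max_left _ _) hD)
  have hD1 : 1 ≤ D := le_trans (le_max_right _ _) hD
  have hD1r : (1 : ℝ) ≤ D := by exact_mod_cast hD1
  have hD0 : (0 : ℝ) < D := by linarith
  obtain ⟨L, hL⟩ : ∃ L : ℝ, L = Real.log (D : ℝ) := ⟨_, rfl⟩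
  rw [← hL] at h4 hB1 hφ1
  have hLe : 1000 ≤ e * L := by
    rw [div_le_iff₀ he0] at hB1
    linarith
  have hL1 : 1000 ≤ L := by
    have h : (1000 : ℝ) ≤ 1000 / e := by
      rw [le_div_iff₀ he0]; linarith
    linarith
  have hL0 : 0 < L := by linarith
  have hexpL : Real.exp L = D := by rw [hL]; exact Real.exp_log hD0
  have hDe : 10 ^ 4 * L ^ 20 ≤ e * D := by
    have h5 : L ^ 20 ≤ (10 ^ 4 / e)⁻¹ * Real.exp L := by
      simpa [abs_of_nonneg (Real.exp_pos L).le, abs_of_nonneg hL0.le] using h4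
    rw [hexpL] at h5
    have h6 := mul_le_mul_of_nonneg_left h5 (show (0 : ℝ) ≤ 10 ^ 4 by positivity)
    refine h6.trans (le_of_eq ?_)
    field_simp
  have hDL : 10 ^ 4 * L ^ 20 ≤ D := by
    refine hDe.trans ?_
    have := mul_le_mul_of_nonneg_right he1 hD0.le
    linarith
  obtain ⟨m, hm⟩ : ∃ m : ℕ, m = ⌈L ^ 3⌉₊ := ⟨_, rfl⟩
  have hm1 : L ^ 3 ≤ m := by rw [hm]; exact Nat.le_ceil _
  have hm2 : (m : ℝ) ≤ L ^ 3 + 1 := by rw [hm]; exact (Nat.ceil_lt_add_one (by positivity)).le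
  have hm0 : (0 : ℝ) < m := lt_of_lt_of_le (by positivity) hm1
  have hmN : 1 ≤ m := by exact_mod_cast hm0
  obtain ⟨x, hx⟩ : ∃ x : ℝ, x = 1 / L ^ 4 := ⟨_, rfl⟩
  have hx0 : 0 < x := by rw [hx]; positivity
  have hx1 : x ≤ 1 := by
    rw [hx, div_le_one (by positivity)]
    exact one_le_pow₀ (by linarith)
  obtain ⟨Y, hY'⟩ : ∃ Y : ℝ, Y = D / (2 * m) := ⟨_, rfl⟩
  have hY : 2 * m * Y = D := by rw [hY']; field_simp
  have hY0 : 0 < Y := by rw [hY']; positivity
  obtain ⟨w, hw⟩ : ∃ w : ℕ, w = ⌊(1 + x) * D / (2 * (m : ℝ))⌋₊ := ⟨_, rfl⟩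
  have hYw : (1 + x) * D / (2 * (m : ℝ)) = (1 + x) * Y := by rw [hY']; ring
  have hwY : (w : ℝ) ≤ (1 + x) * Y := by
    rw [hw, hYw]; exact Nat.floor_le (by positivity)
  have hYw2 : Y ≤ w + 1 := by
    have h9 : (1 + x) * Y ≤ w + 1 := by rw [hw, hYw]; exact (Nat.lt_floor_add_one _).le
    have h10 : 0 < x * Y := by positivity
    linarith
  have hw0 : (0 : ℝ) ≤ w := by positivity
  have hφ0 : 0 < φ := lt_of_lt_of_le (by positivity) hφ1
  obtain ⟨k, hk⟩ : ∃ k : ℕ, k = ⌊(1 + e / 4) * (w / D) * φ⌋₊ := ⟨_, rfl⟩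
  have hk1 : (k : ℝ) ≤ (1 + e / 4) * (w / D) * φ := by
    rw [hk]; exact Nat.floor_le (by positivity)
  obtain ⟨c1, c2, c3, c4, c5, c6, c7, c8⟩ := small_num he0 he1 hLe hL1 hDL hDe hm1 hm2 hx hY hwY
    hYw2 hw0 hφ1 hφ2 hk1 (by positivity) hp
  have hexp := exp_bound hL hD0 hD1r hm0 c1 c2
  have hcast : ((2 * m : ℕ) : ℝ) = 2 * (m : ℝ) := by push_cast; ring
  obtain ⟨t, ht1, ht2⟩ := partition G (2 * m) D (by omega) hD1 hdeg x hx0.le hx1 (by
    rw [hcast]
    push_cast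
    exact hexp)
  rw [hcast, ← hw] at ht2
  rw [hL] at c7
  obtain ⟨c, hc1, hc2⟩ := glue_types G t k (by
    intro y
    obtain ⟨n, hn, hn2⟩ := hcol w c7 (by exact_mod_cast c8) {v | t v = y} (by
      intro v _
      refine le_trans ?_ (ht2 v y)
      rw [← Set.ncard_coe_finset]
      refine Set.ncard_le_ncard ?_ (Set.toFinite _)
      intro u hu
      simp only [coe_filter, Set.mem_setOf_eq, SimpleGraph.mem_neighborFinset]
      exact ⟨hu.2, hu.1⟩)
    exact ⟨n, by rw [hk]; exact Nat.le_floor hn, hn2⟩)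
  have hp1 : 1 ≤ p := by
    have : (0 : ℝ) < p := lt_of_lt_of_le (by positivity) hp
    exact_mod_cast this
  have hkw : k ≤ w := by exact_mod_cast c3
  refine structB G m 0 w k p D (by omega) hp1 t ht1 ht2 c hc1 hc2 (by omega) ?_ ?_ ?_ ?_
  · have h9 : ((m : ℝ) - 1 - 0) * k ≤ ((m : ℝ) - 1 - 2 * 0) * (w + 1) := by
      have h10 : (k : ℝ) ≤ w + 1 := by linarith
      have h11 : (1 : ℝ) ≤ m := by exact_mod_cast hmN
      have := mul_le_mul_of_nonneg_left h10 (by linarith : (0 : ℝ) ≤ (m : ℝ) - 1)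
      linarith
    exact_mod_cast h9
  · exact_mod_cast c4
  · exact_mod_cast c5
  · exact_mod_cast c6

end Pool.Agent.Q109.HY
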