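import Mathlib
import Pool.Agent.TH104.HY.E
import Pool.Agent.Q109.HY.Small

set_option autoImplicit false

/-!
(p,1)-total labellings from colourings of the induced subgraphs of smaller maximum degree:
the case of linearly many colours.
-/

namespace Pool.Agent.Q109.HY

open Finset Pool.Agent.H238R2.HY Pool.Agent.TH104.HY Pool.Agent.Helper311.Glue

set_option maxHeartbeats 2000000 in
theorem linear_core {V : Type} [Fintype V] (G : SimpleGraph V) [DecidableRel G.Adj]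
    (D p q m w₀ : ℕ) (e a : ℝ) (he : 0 < e) (he2 : e ≤ 1 / 2) (ha0 : 0 ≤ a) (ha1 : a + 2 * e ≤ 1)
    (hD : ∀ v, G.degree v ≤ D)
    (hcol : ∀ w : ℕ, w₀ ≤ w → ∀ P : Set V, (∀ v ∈ P, {u | u ∈ P ∧ G.Adj v u}.ncard ≤ w) →
      ∃ n : ℕ, (n : ℝ) ≤ (a + e / 8) * w ∧ ColOn G P n)
    (hp : a * D + e * D ≤ 2 * p)
    (hq : 1 ≤ ((q : ℝ) + 1) * e) (hm : 8 * (q : ℝ) + 12 ≤ e * ((m : ℝ) - 1 - q))
    (hD1 : 24 * (m : ℝ) ≤ e * D) (hD2 : 4 * (m : ℝ) * (2 * m + 1) ≤ D)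
    (hD3 : 48 * (2 * (m : ℝ)) * (192 * (m : ℝ) ^ 3 / e) ^ 3 ≤ D)
    (hD4 : 2 * (m : ℝ) * (w₀ + 1) ≤ D) :
    TotLab G p (D + 2 * p - 1) := by
  classical
  have hq0 : (0 : ℝ) ≤ q := by positivity
  have hZ : 8 * (q : ℝ) + 12 ≤ (m : ℝ) - 1 - q := by nlinarith
  have hm2 : 2 * (q : ℝ) + 1 ≤ m := by linarith
  have hm2' : 2 * q + 1 ≤ m := by exact_mod_cast hm2
  have hmR : (13 : ℝ) ≤ m := by linarith
  have hm0 : (0 : ℝ) < m := by linarith
  have hDpos : (0 : ℝ) < D := by nlinarith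
  have hem : 8 * (q : ℝ) + 12 ≤ e * m := by
    have : 0 ≤ e * (1 + q) := by positivity
    linarith
  obtain ⟨x, hx⟩ : ∃ x : ℝ, x = 1 / (4 * (m : ℝ)) := ⟨_, rfl⟩
  have hxm : x * m = 1 / 4 := by rw [hx]; field_simp
  have hx0 : 0 < x := by rw [hx]; positivity
  have hx4 : x ≤ 1 / 4 := by nlinarith
  obtain ⟨u, hu⟩ : ∃ u : ℝ, u = (1 + x) * D / (2 * (m : ℝ)) := ⟨_, rfl⟩
  have hum : 2 * m * u = D + x * D := by rw [hu]; field_simp
  have hu0 : 0 < u := by rw [hu]; positivity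
  have hmu : (D : ℝ) ≤ 2 * m * u := by
    rw [hum]
    have : 0 ≤ x * D := by positivity
    linarith
  have hD1' : 1 ≤ D := by
    have : (0 : ℝ) < D := hDpos
    exact_mod_cast this
  have hcast : ((2 * m : ℕ) : ℝ) = 2 * (m : ℝ) := by push_cast; ring
  have hK : 1 ≤ 2 * m := by omega
  have hexp := exp_cond hm0 he hDpos hx (show e * D / 2 ≤ (D : ℝ) by nlinarith) hD3
  obtain ⟨t, ht1, ht2⟩ := partition G (2 * m) D hK hD1' hD x hx0.le (by linarith) (by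
    rw [hcast]
    push_cast
    refine le_trans ?_ hexp
    have h0 : 0 ≤ 2 * (m : ℝ) * Real.exp (-(x ^ 2 * D / (3 * (2 * m)))) := by positivity
    have h1 : (0 : ℝ) ≤ (D : ℝ) * D := by positivity
    nlinarith [mul_nonneg h0 h1])
  rw [hcast] at ht2
  obtain ⟨w, hw⟩ : ∃ w : ℕ, w = ⌊(1 + x) * D / (2 * (m : ℝ))⌋₊ := ⟨_, rfl⟩
  rw [← hw] at ht2
  have hwu : (w : ℝ) ≤ u := by rw [hw, hu]; exact Nat.floor_le (by positivity)
  have huw : u ≤ w + 1 := by rw [hw, hu]; exact (Nat.lt_floor_add_one _).le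
  have hw0 : w₀ ≤ w := by
    have h1 : 2 * (m : ℝ) * (w₀ + 1) ≤ 2 * m * (w + 1) := by
      refine hD4.trans (hmu.trans ?_)
      exact mul_le_mul_of_nonneg_left huw (by positivity)
    have h2 : (w₀ : ℝ) + 1 ≤ w + 1 := le_of_mul_le_mul_left h1 (by positivity)
    have h3 : (w₀ : ℝ) ≤ w := by linarith
    exact_mod_cast h3
  obtain ⟨k', hk'⟩ : ∃ k' : ℕ, k' = ⌊(a + e / 8) * w⌋₊ := ⟨_, rfl⟩
  have hk1 : (k' : ℝ) ≤ (a + e / 8) * w := by rw [hk']; exact Nat.floor_le (by positivity)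
  have hk2 : (k' : ℝ) ≤ (a + e / 8) * u :=
    hk1.trans (mul_le_mul_of_nonneg_left hwu (by positivity))
  obtain ⟨c, hc1, hc2⟩ := glue_types G t (k' + 1) (by
    intro y
    obtain ⟨n, hn, hn2⟩ := hcol w hw0 {v | t v = y} (by
      intro v _
      refine le_trans ?_ (ht2 v y)
      rw [← Set.ncard_coe_finset]
      refine Set.ncard_le_ncard ?_ (Set.toFinite _)
      intro u hu
      rw [Finset.mem_coe, Finset.mem_filter, SimpleGraph.mem_neighborFinset]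
      exact ⟨hu.2, hu.1⟩)
    exact ⟨n, by rw [hk']; exact (Nat.le_floor hn).trans (Nat.le_succ _), hn2⟩)
  have hku2 : 2 * m * (k' : ℝ) ≤ (1 + x) * ((a + e / 8) * D) := by
    have h1 : 2 * m * (k' : ℝ) ≤ 2 * m * ((a + e / 8) * u) :=
      mul_le_mul_of_nonneg_left hk2 (by positivity)
    have h2 : 2 * m * ((a + e / 8) * u) = (a + e / 8) * (2 * m * u) := by ring
    rw [h2, hum] at h1
    linarith
  have hku3 : (k' : ℝ) ≤ (1 - e) * u := by
    refine hk2.trans ?_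
    exact mul_le_mul_of_nonneg_right (by linarith) hu0.le
  have hkw : k' + 1 ≤ w + 1 := by
    have : (k' : ℝ) ≤ w := by
      refine hk1.trans ?_
      have h1 : (a + e / 8) ≤ 1 := by linarith
      have h2 := mul_le_mul_of_nonneg_right h1 (show (0 : ℝ) ≤ w by positivity)
      linarith
    have : k' ≤ w := by exact_mod_cast this
    omega
  have hs0 : (0 : ℝ) ≤ a * D := by positivity
  have heD : 0 < e * D := by positivity
  have hp1 : 1 ≤ p := by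
    have : (0 : ℝ) < p := by linarith
    exact_mod_cast this
  have hue : 12 ≤ e * u := by
    have h1 : 24 * (m : ℝ) ≤ e * (2 * m * u) := hD1.trans (mul_le_mul_of_nonneg_left hmu he.le)
    have h3 : (2 * (m : ℝ)) * 12 ≤ (2 * (m : ℝ)) * (e * u) := by linarith
    exact le_of_mul_le_mul_left h3 (by positivity)
  have hk0 : (0 : ℝ) ≤ k' := by positivity
  have hs'D : (a + e / 8) * D ≤ (D : ℝ) := by
    have h1 : (a + e / 8) ≤ 1 := by linarith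
    have h2 := mul_le_mul_of_nonneg_right h1 hDpos.le
    linarith
  have hs3 : (a + e / 8) * D ≤ a * D + e * D / 2 + 1 := by nlinarith
  refine structB G m q w (k' + 1) p D hm2' hp1 t ht1 ht2 c hc1 hc2 hkw ?_ ?_ ?_ ?_
  · have h := arH1 hq0 hu0 hm hZ hue huw hku3
    exact_mod_cast h
  · have h := arH2 hq0 hu0 hm0 hq hZ hwu hku3 hxm hum hmu hD2
    exact_mod_cast h
  · have h := arH3 hm0 hx0 hx4 hDpos he hs'D hq0 hem hwu hxm hum hku2 hs3 hp hD1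
    exact_mod_cast h
  · have h := arH4 hm0 hx4 hk0 hs0 hDpos he he2 hq0 hem hwu hum hp hD1
    exact_mod_cast h

theorem linear_main (a ε : ℝ) (ha0 : 0 ≤ a) (ha1 : a < 1) (hε : 0 < ε) : ∃ e : ℝ, 0 < e ∧
    ∀ w₀ : ℕ, ∃ D₀ : ℕ, ∀ (V : Type) [Fintype V]
    (G : SimpleGraph V) [DecidableRel G.Adj] (D p : ℕ), D₀ ≤ D → (∀ v, G.degree v ≤ D) →
    (∀ w : ℕ, w₀ ≤ w → ∀ P : Set V, (∀ v ∈ P, {u | u ∈ P ∧ G.Adj v u}.ncard ≤ w) →
      ∃ n : ℕ, (n : ℝ) ≤ (a + e) * w ∧ ColOn G P n) →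
    (a / 2 + ε) * D ≤ p → TotLab G p (D + 2 * p - 1) := by
  obtain ⟨e, he⟩ : ∃ e : ℝ, e = min ε ((1 - a) / 2) := ⟨_, rfl⟩
  have he0 : 0 < e := by rw [he]; exact lt_min hε (by linarith)
  have heε : e ≤ ε := by rw [he]; exact min_le_left _ _
  have he2 : e ≤ (1 - a) / 2 := by rw [he]; exact min_le_right _ _
  refine ⟨e / 8, by positivity, ?_⟩
  intro w₀
  obtain ⟨q, hq⟩ : ∃ q : ℕ, 1 / e ≤ q := exists_nat_ge _
  obtain ⟨m, hm⟩ : ∃ m : ℕ, (8 * (q : ℝ) + 12) / e + 1 + q ≤ m := exists_nat_ge _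
  obtain ⟨D₀, hD₀⟩ : ∃ D₀ : ℕ, 24 * (m : ℝ) / e + 4 * (m : ℝ) * (2 * m + 1) +
    48 * (2 * (m : ℝ)) * (192 * (m : ℝ) ^ 3 / e) ^ 3 + 2 * (m : ℝ) * (w₀ + 1) ≤ D₀ :=
    exists_nat_ge _
  refine ⟨D₀, ?_⟩
  intro V _ G _ D p hD₀D hD hcol hp
  have hDr : (D₀ : ℝ) ≤ D := by exact_mod_cast hD₀D
  have a1 : 0 ≤ 24 * (m : ℝ) / e := by positivity
  have a2 : 0 ≤ 4 * (m : ℝ) * (2 * m + 1) := by positivity
  have a3 : 0 ≤ 48 * (2 * (m : ℝ)) * (192 * (m : ℝ) ^ 3 / e) ^ 3 := by positivity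
  have a4 : 0 ≤ 2 * (m : ℝ) * (w₀ + 1) := by positivity
  have hDe : e * D ≤ ε * D := mul_le_mul_of_nonneg_right heε (by positivity)
  refine linear_core G D p q m w₀ e a he0 (by linarith) ha0 (by linarith) hD hcol ?_ ?_ ?_ ?_ ?_
    ?_ ?_
  · have h0 : 0 ≤ e * D := by positivity
    linarith
  · have h1 : 1 ≤ q * e := by rwa [div_le_iff₀ he0] at hq
    linarith
  · have h1 : (8 * (q : ℝ) + 12) / e ≤ m - 1 - q := by linarith
    rw [div_le_iff₀ he0] at h1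
    linarith
  · have h1 : 24 * (m : ℝ) / e ≤ D := by linarith
    rw [div_le_iff₀ he0] at h1
    linarith
  · linarith
  · linarith
  · linarith

end Pool.Agent.Q109.HY
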