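import Mathlib
import Pool.Agent.Q109.HY.Linear
import Pool.Agent.TH855.CF

set_option autoImplicit false

/-!
(p,1)-total labellings for hereditary classes of graphs, and for the graphs without a copy of `F`.
-/

namespace Pool.Agent.Q109.HY

open Finset Filter Pool.Agent.TH104.HY Pool.Agent.Helper311.Glue Pool.Agent.TH855
open scoped ENNReal

lemma colOn_of_induce {V : Type} (G : SimpleGraph V) (P : Set V) (n : ℕ)
    (h : (G.induce P).Colorable n) : ColOn G P n := by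
  classical
  obtain ⟨C⟩ := h
  refine ⟨fun v => if hv : v ∈ P then (C ⟨v, hv⟩ : ℕ) else 0, ?_, ?_⟩
  · intro v hv
    simp only [dif_pos hv]
    exact (C ⟨v, hv⟩).2
  · intro u hu v hv huv heq
    simp only [dif_pos hu, dif_pos hv] at heq
    exact C.valid (show (G.induce P).Adj ⟨u, hu⟩ ⟨v, hv⟩ from huv) (Fin.ext heq)

lemma induce_deg {V : Type} (G : SimpleGraph V) (P : Set V) (v : P) :
    ((G.induce P).neighborSet v).ncard = {u | u ∈ P ∧ G.Adj v u}.ncard := by
  rw [← Set.ncard_image_of_injective _ Subtype.val_injective]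
  congr 1
  ext u
  constructor
  · rintro ⟨w, hw, rfl⟩
    exact ⟨w.2, hw⟩
  · rintro ⟨h1, h2⟩
    exact ⟨⟨u, h1⟩, h2, rfl⟩

/-- a class of graphs closed under induced subgraphs -/
def Hered (Φ : (V : Type) → SimpleGraph V → Prop) : Prop :=
  ∀ (V : Type) (G : SimpleGraph V) (P : Set V), Φ V G → Φ P (G.induce P)

theorem class_small (Φ : (V : Type) → SimpleGraph V → Prop) (hΦ : Hered Φ) (f : ℕ → ℝ)
    (hf : ∀ᶠ D : ℕ in atTop, (D : ℝ) / Real.log D ^ 2 ≤ f D ∧ f D ≤ D / 6)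
    (hcol : ∀ ε : ℝ, 0 < ε → ∃ D₀ : ℕ, ∀ D w : ℕ, D₀ ≤ D → (D : ℝ) / Real.log D ^ 4 ≤ w → w ≤ D →
      ∀ (V : Type) [Fintype V] (G : SimpleGraph V), Φ V G → (∀ v, (G.neighborSet v).ncard ≤ w) →
        ∃ k : ℕ, G.Colorable k ∧ (k : ℝ) ≤ (1 + ε) * (w / D) * f D)
    (ε : ℝ) (hε : 0 < ε) : ∃ D₀ : ℕ, ∀ (V : Type) [Fintype V] (G : SimpleGraph V)
      [DecidableRel G.Adj] (D p : ℕ),
      D₀ ≤ D → (∀ v, G.degree v ≤ D) → Φ V G → (1 / 2 + ε) * f D ≤ p →
        TotLab G p (D + 2 * p - 1) := by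
  obtain ⟨e, he⟩ : ∃ e : ℝ, e = min ε 1 := ⟨_, rfl⟩
  have he0 : 0 < e := by rw [he]; exact lt_min hε (by norm_num)
  have heε : e ≤ ε := by rw [he]; exact min_le_left _ _
  have he1 : e ≤ 1 := by rw [he]; exact min_le_right _ _
  obtain ⟨D₁, h1⟩ := small_core e he0 he1
  obtain ⟨D₂, h2⟩ := hcol (e / 4) (by positivity)
  obtain ⟨D₃, h3⟩ := eventually_atTop.1 hf
  refine ⟨max (max D₁ D₂) (max D₃ 2), ?_⟩
  intro V _ G _ D p hD hdeg hG hp
  classical
  have hD1 : D₁ ≤ D := (le_max_left _ _).trans ((le_max_left _ _).trans hD)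
  have hD2 : D₂ ≤ D := (le_max_right _ _).trans ((le_max_left _ _).trans hD)
  have hD3 : D₃ ≤ D := (le_max_left _ _).trans ((le_max_right _ _).trans hD)
  have hD4 : 2 ≤ D := (le_max_right _ _).trans ((le_max_right _ _).trans hD)
  obtain ⟨f1, f2⟩ := h3 D hD3
  have hD4' : (1 : ℝ) < D := by exact_mod_cast hD4
  have hlog : 0 < Real.log D := Real.log_pos hD4'
  have hf0 : 0 < f D := lt_of_lt_of_le (by positivity) f1
  refine h1 V G D p (f D) hD1 hdeg f1 f2 ?_ ?_
  · intro w hw1 hw2 P hP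
    obtain ⟨k, hk1, hk2⟩ := h2 D w hD2 hw1 hw2 P (G.induce P) (hΦ V G P hG) (by
      intro v
      rw [induce_deg]
      exact hP v v.2)
    exact ⟨k, hk2, colOn_of_induce G P k hk1⟩
  · refine le_trans ?_ hp
    exact mul_le_mul_of_nonneg_right (by linarith) hf0.le

theorem class_linear (Φ : (V : Type) → SimpleGraph V → Prop) (hΦ : Hered Φ) (a : ℝ)
    (ha0 : 0 ≤ a) (ha1 : a < 1)
    (hcol : ∀ ε : ℝ, 0 < ε → ∃ w₀ : ℕ, ∀ w : ℕ, w₀ ≤ w →
      ∀ (V : Type) [Fintype V] (G : SimpleGraph V), Φ V G → (∀ v, (G.neighborSet v).ncard ≤ w) →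
        ∃ k : ℕ, G.Colorable k ∧ (k : ℝ) ≤ (a + ε) * w)
    (ε : ℝ) (hε : 0 < ε) : ∃ D₀ : ℕ, ∀ (V : Type) [Fintype V] (G : SimpleGraph V)
      [DecidableRel G.Adj] (D p : ℕ),
      D₀ ≤ D → (∀ v, G.degree v ≤ D) → Φ V G → (a / 2 + ε) * D ≤ p →
        TotLab G p (D + 2 * p - 1) := by
  obtain ⟨e, he, h1⟩ := linear_main a ε ha0 ha1 hε
  obtain ⟨w₀, h2⟩ := hcol e he
  obtain ⟨D₀, h3⟩ := h1 w₀
  refine ⟨D₀, ?_⟩
  intro V _ G _ D p hD hdeg hG hp
  classical
  refine h3 V G D p hD hdeg ?_ hp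
  intro w hw P hP
  obtain ⟨k, hk1, hk2⟩ := h2 w hw P (G.induce P) (hΦ V G P hG) (by
    intro v
    rw [induce_deg]
    exact hP v v.2)
  exact ⟨k, hk2, colOn_of_induce G P k hk1⟩

/-- the numerical part of the theorem on `F`-free graphs -/
lemma log_num (θ : ℝ) (hθ : 0 < θ) : ∀ᶠ D : ℕ in atTop, ∀ w : ℕ,
    (D : ℝ) / Real.log D ^ 4 ≤ w → (1 - θ) * Real.log D ≤ Real.log w := by
  have h2 : Tendsto (fun n : ℕ => Real.log (n : ℝ)) atTop atTop :=
    Real.tendsto_log_atTop.comp tendsto_natCast_atTop_atTop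
  have h1 := Real.isLittleO_log_id_atTop.bound (show (0 : ℝ) < θ / 4 by positivity)
  have h3 := h2.eventually (h1.and (eventually_ge_atTop (1 : ℝ)))
  filter_upwards [h3, eventually_ge_atTop 2] with D hD hD2 w hw
  obtain ⟨h4, h5⟩ := hD
  have hD2' : (1 : ℝ) < D := by exact_mod_cast hD2
  have hL0 : 0 < Real.log D := by linarith
  have h6 : Real.log (Real.log D) ≤ θ / 4 * Real.log D := by
    have := (le_abs_self _).trans h4
    simpa [abs_of_nonneg hL0.le] using this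
  have h7 : Real.log ((D : ℝ) / Real.log D ^ 4) = Real.log D - 4 * Real.log (Real.log D) := by
    rw [Real.log_div (by positivity) (by positivity), Real.log_pow]
    norm_num
  have h8 : 0 < (D : ℝ) / Real.log D ^ 4 := by positivity
  have h9 := Real.log_le_log h8 hw
  rw [h7] at h9
  linarith

theorem free_main {W : Type} (F : SimpleGraph W) (C : ℝ) (hC0 : 0 ≤ C) (hup : UpTo F C)
    (ε : ℝ) (hε : 0 < ε) :
    ∃ D₀ : ℕ, ∀ (V : Type) [Fintype V] (G : SimpleGraph V)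
      [DecidableRel G.Adj] (D p : ℕ),
      D₀ ≤ D → (∀ v, G.degree v ≤ D) → F.Free G →
      (C / 2 + ε) * (D / Real.log D) ≤ p → TotLab G p (D + 2 * p - 1) := by
  have hgb := UpTo.gb hC0 hup
  obtain ⟨δ, hδ⟩ : ∃ δ : ℝ, δ = ε / 2 := ⟨_, rfl⟩
  have hδ0 : 0 < δ := by rw [hδ]; positivity
  obtain ⟨e, he⟩ : ∃ e : ℝ, e = min 1 (ε / (2 * (C + δ))) := ⟨_, rfl⟩
  have he0 : 0 < e := by rw [he]; exact lt_min one_pos (by positivity)
  have he1 : e ≤ 1 := by rw [he]; exact min_le_left _ _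
  have he2 : e * (C + δ) ≤ ε / 2 := by
    have h : e ≤ ε / (2 * (C + δ)) := by rw [he]; exact min_le_right _ _
    have h1 := mul_le_mul_of_nonneg_right h (show 0 ≤ C + δ by positivity)
    refine h1.trans (le_of_eq ?_)
    field_simp
  obtain ⟨D₁, h1⟩ := small_core e he0 he1
  obtain ⟨y₀, h2⟩ := hgb (δ / 2) (by positivity)
  have h3 := log_num (δ / (2 * (C + δ))) (by positivity)
  have hlog : Tendsto (fun n : ℕ => Real.log (n : ℝ)) atTop atTop :=
    Real.tendsto_log_atTop.comp tendsto_natCast_atTop_atTop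
  have h4 := hlog.eventually (eventually_ge_atTop (max (1 / δ) (6 * (C + δ))))
  have h5 := (isLittleO_pow_exp_pos_mul_atTop 4 (show (0 : ℝ) < 1 by norm_num)).bound
    (show (0 : ℝ) < (max y₀ 3)⁻¹ by positivity)
  have h6 := hlog.eventually h5
  obtain ⟨D₂, h7⟩ := eventually_atTop.1 (h3.and (h4.and h6))
  refine ⟨max (max D₁ D₂) 2, ?_⟩
  intro V _ G _ D p hD hdeg hG hp
  classical
  have hD1 : D₁ ≤ D := (le_max_left _ _).trans ((le_max_left _ _).trans hD)
  have hD2 : D₂ ≤ D := (le_max_right _ _).trans ((le_max_left _ _).trans hD)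
  have hD4 : 2 ≤ D := (le_max_right _ _).trans hD
  have hD4' : (1 : ℝ) < D := by exact_mod_cast hD4
  have hD0 : (0 : ℝ) < D := by linarith
  obtain ⟨g1, g2, g3⟩ := h7 D hD2
  obtain ⟨L, hL⟩ : ∃ L : ℝ, L = Real.log (D : ℝ) := ⟨_, rfl⟩
  have hL0 : 0 < L := by rw [hL]; exact Real.log_pos hD4'
  have g2a : 1 / δ ≤ L := by rw [hL]; exact (le_max_left _ _).trans g2
  have g2b : 6 * (C + δ) ≤ L := by rw [hL]; exact (le_max_right _ _).trans g2
  have hδL : 1 ≤ δ * L := by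
    rw [div_le_iff₀ hδ0] at g2a
    linarith
  have hy : y₀ * L ^ 4 ≤ D ∧ 3 * L ^ 4 ≤ D := by
    have hexpL : Real.exp L = D := by rw [hL]; exact Real.exp_log hD0
    have h8 : L ^ 4 ≤ (max y₀ 3)⁻¹ * D := by
      rw [← hL] at g3
      have h9 : L ^ 4 ≤ (max y₀ 3)⁻¹ * Real.exp L := by
        simpa [abs_of_nonneg (Real.exp_pos L).le, abs_of_nonneg hL0.le] using g3
      rwa [hexpL] at h9
    have h10 : (0 : ℝ) < max y₀ 3 := by positivity
    have h11 : max y₀ 3 * L ^ 4 ≤ D := by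
      have := mul_le_mul_of_nonneg_left h8 h10.le
      rwa [← mul_assoc, mul_inv_cancel₀ h10.ne', one_mul] at this
    constructor
    · exact (mul_le_mul_of_nonneg_right (le_max_left _ _) (by positivity)).trans h11
    · exact (mul_le_mul_of_nonneg_right (le_max_right _ _) (by positivity)).trans h11
  rw [← hL] at hp
  refine h1 V G D p ((C + δ) * (D / L)) hD1 hdeg ?_ ?_ ?_ ?_
  · rw [← hL, div_le_iff₀ (by positivity)]
    have e1 : (C + δ) * (D / L) * L ^ 2 = (C + δ) * L * D := by field_simp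
    rw [e1]
    have h8 : 1 ≤ (C + δ) * L := by
      have : 0 ≤ C * L := by positivity
      linarith
    have := mul_le_mul_of_nonneg_right h8 hD0.le
    linarith
  · rw [le_div_iff₀ (by norm_num), ← mul_div_assoc, div_mul_eq_mul_div, div_le_iff₀ hL0]
    have := mul_le_mul_of_nonneg_right g2b hD0.le
    linarith
  · intro w hw1 hw2 P hP
    have hlw := g1 w hw1
    rw [← hL] at hw1 hlw
    have hw3 : y₀ ≤ w ∧ (3 : ℝ) ≤ w := by
      have h8 : y₀ ≤ D / L ^ 4 := by rw [le_div_iff₀ (by positivity)]; exact hy.1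
      have h9 : 3 ≤ (D : ℝ) / L ^ 4 := by rw [le_div_iff₀ (by positivity)]; exact hy.2
      exact ⟨h8.trans hw1, h9.trans hw1⟩
    obtain ⟨n, hn1, hn2⟩ := h2 w hw3.1 V G P (by
      intro T hT
      rintro ⟨φ, hφ1, hφ2⟩
      exact hG ⟨⟨φ, fun {a b} h => hφ1.2 _ _ h⟩, hφ1.1⟩) (by
      intro v hv
      have h8 := hP v hv
      have h9 : (((G.neighborFinset v).filter (fun u => u ∈ P)).card : ℕ) ≤ w := by
        refine le_trans (le_of_eq ?_) h8
        rw [← Set.ncard_coe_finset]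
        congr 1
        ext u
        rw [Finset.mem_coe, Finset.mem_filter, SimpleGraph.mem_neighborFinset]
        exact and_comm
      exact_mod_cast h9)
    refine ⟨n, hn1.trans ?_, hn2⟩
    have hw0 : (0 : ℝ) < w := by linarith [hw3.2]
    have hlw0 : 0 < Real.log w := Real.log_pos (by linarith [hw3.2])
    have e1 : (1 + e / 4) * ((w : ℝ) / D) * ((C + δ) * (D / L)) =
        (1 + e / 4) * ((C + δ) * (w / L)) := by field_simp
    rw [e1]
    have h10 : (C + δ / 2) * (w / Real.log w) ≤ (C + δ) * (w / L) := by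
      rw [← mul_div_assoc, ← mul_div_assoc, div_le_div_iff₀ hlw0 hL0]
      have e2 : (1 - δ / (2 * (C + δ))) * L = (C + δ / 2) * L / (C + δ) := by
        field_simp; ring
      rw [e2, div_le_iff₀ (by positivity)] at hlw
      have := mul_le_mul_of_nonneg_left hlw hw0.le
      nlinarith
    refine h10.trans ?_
    have h11 : 0 ≤ (C + δ) * (w / L) := by positivity
    have h12 : 0 ≤ e / 4 * ((C + δ) * (w / L)) := by positivity
    linarith
  · refine le_trans ?_ hp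
    have h8 : 0 ≤ (D : ℝ) / L := by positivity
    have h9 : (1 / 2 + e) * (C + δ) ≤ C / 2 + ε := by
      have : (1 / 2 + e) * (C + δ) = C / 2 + δ / 2 + e * (C + δ) := by ring
      rw [this]; linarith
    have := mul_le_mul_of_nonneg_right h9 h8
    linarith

end Pool.Agent.Q109.HY
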